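import Mathlib
import Pool.Agent.Helper270.WPB
import Pool.Agent.V11259.TreeH

set_option autoImplicit false

/-! # MP_56939f_al, Q1: a finitely presented tree-like inverse monoid, all of whose Schützenberger
graphs are finite, for which all four membership problems are undecidable. -/

namespace Pool.Agent.Results.MP_56939f_al.AllFourUndecidable

open Pool.Agent.V11259.TreeMon hiding mt

section red

variable {m : ℕ}

instance : Finite (Ge m) := by
  have e : Ge m ≃ (Bool × Fin m) ⊕ Bool ⊕ Unit :=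
    { toFun := fun g => match g with
        | .g s i => .inl (s, i)
        | .r b => .inr (.inl b)
        | .z => .inr (.inr ())
      invFun := fun g => match g with
        | .inl (s, i) => .g s i
        | .inr (.inl b) => .r b
        | .inr (.inr _) => .z
      left_inv := fun g => by cases g <;> rfl
      right_inv := fun g => by rcases g with ⟨s, i⟩ | b | _ <;> rfl }
  exact Finite.of_equiv _ e.symm

theorem rel_finite : {p : Wd (Ge m) × Wd (Ge m) | Rel m p.1 p.2}.Finite := by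
  have h1 : (Set.range (fun q : (Ge m × Bool) × (Ge m × Bool) × (Ge m × Bool) × (Ge m × Bool) =>
      (([q.1, q.2.1], [q.2.2.1, q.2.2.2]) : Wd (Ge m) × Wd (Ge m)))).Finite := Set.finite_range _
  have h2 : (Set.range (fun q : (Ge m × Bool) × (Ge m × Bool) × (Ge m × Bool) =>
      (([q.1, q.2.1], [q.2.2]) : Wd (Ge m) × Wd (Ge m)))).Finite := Set.finite_range _
  apply (h1.union h2).subset
  rintro ⟨u, v⟩ h
  change Rel m u v at h
  cases h with
  | sq i j b c => exact Or.inl ⟨(_, _, _, _), rfl⟩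
  | zl x => exact Or.inr ⟨(_, _, _), rfl⟩
  | zr x => exact Or.inr ⟨(_, _, _), rfl⟩
  | ty x y p q hx hy h => exact Or.inr ⟨(_, _, _), rfl⟩
  | cf b => exact Or.inr ⟨(_, _, _), rfl⟩

variable (R₀ : Finset (FreeGroup (Fin m)))

/-- The fixed words. -/
noncomputable def X0 : List (Wd (Ge m)) :=
  [(Ge.r false, true), (Ge.r false, false)] ::
    ((List.finRange m).map dg ++ R₀.toList.map (fun r => rn (Ge.g false) r.toWord))

/-- All words. -/
noncomputable def Xs (w : Wd (Fin m)) : List (Wd (Ge m)) := fw w :: X0 R₀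

theorem mem_Xs_dg (w : Wd (Fin m)) (i : Fin m) : dg i ∈ Xs R₀ w := by
  simp [Xs, X0]

theorem mem_Xs_rel (w : Wd (Fin m)) {r : FreeGroup (Fin m)} (hr : r ∈ R₀) :
    rn (Ge.g false) r.toWord ∈ Xs R₀ w := by
  unfold Xs X0
  refine List.mem_cons_of_mem _ (List.mem_cons_of_mem _ (List.mem_append.mpr (Or.inr ?_)))
  exact List.mem_map.mpr ⟨r, Finset.mem_toList.mpr hr, rfl⟩

theorem mem_Xs_mark (w : Wd (Fin m)) :
    [(Ge.r false, true), (Ge.r false, false)] ∈ Xs R₀ w := by
  simp [Xs, X0]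

theorem mem_Xs_fw (w : Wd (Fin m)) : fw w ∈ Xs R₀ w := by
  simp [Xs]

/-- The good elements. -/
def GS {w : Wd (Fin m)} (hw : FreeGroup.mk w ∉ Subgroup.normalClosure (R₀ : Set (FreeGroup (Fin m)))) :
    Submonoid (TM m) where
  carrier := {s | ∃ u, mk (Rel m) u = s ∧ Good (R₀ : Set (FreeGroup (Fin m))) (FreeGroup.mk w) u}
  mul_mem' := by
    rintro _ _ ⟨u, rfl, hu⟩ ⟨v, rfl, hv⟩
    exact ⟨u ++ v, rfl, hu.app hv⟩
  one_mem' := ⟨[], rfl, good_nil _⟩

theorem mem_GS {w : Wd (Fin m)} (hw : FreeGroup.mk w ∉ Subgroup.normalClosure (R₀ : Set (FreeGroup (Fin m))))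
    (u : Wd (Ge m)) : mk (Rel m) u ∈ GS R₀ hw ↔ Good (R₀ : Set (FreeGroup (Fin m))) (FreeGroup.mk w) u :=
  ⟨fun ⟨_, h1, h2⟩ => h2.congr hw h1, fun h => ⟨u, rfl, h⟩⟩

theorem good_Xs {w : Wd (Fin m)} {x : Wd (Ge m)} (hx : x ∈ Xs R₀ w) :
    Good (R₀ : Set (FreeGroup (Fin m))) (FreeGroup.mk w) x := by
  rcases List.mem_cons.mp hx with rfl | hx
  · exact good_fw w
  · rcases List.mem_cons.mp hx with rfl | hx
    · exact good_mark _
    · rcases List.mem_append.mp hx with hx | hx
      · obtain ⟨i, _, rfl⟩ := List.mem_map.mp hx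
        exact good_dg _ i
      · obtain ⟨r, hr, rfl⟩ := List.mem_map.mp hx
        apply good_rel
        rw [FreeGroup.mk_toWord]
        exact Subgroup.subset_normalClosure (Finset.mem_toList.mp hr)

theorem zero_mem_of {T : Submonoid (TM m)} {w : Wd (Fin m)}
    (h : ∀ x ∈ Xs R₀ w, Two T x)
    (hw : FreeGroup.mk w ∈ Subgroup.normalClosure (R₀ : Set (FreeGroup (Fin m)))) : zz ∈ T :=
  zero_mem (R₀ : Set (FreeGroup (Fin m))) T (fun i => h _ (mem_Xs_dg R₀ w i))
    (fun r hr => ⟨r.toWord, FreeGroup.mk_toWord, h _ (mem_Xs_rel R₀ w hr)⟩)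
    (h _ (mem_Xs_mark R₀ w)).1 w (h _ (mem_Xs_fw R₀ w)).1 hw

theorem inverse_iff (w : Wd (Fin m)) : InverseMem (Rel m) (Xs R₀ w, [(Ge.z, true)]) ↔
    FreeGroup.mk w ∈ Subgroup.normalClosure (R₀ : Set (FreeGroup (Fin m))) := by
  constructor
  · intro h
    by_contra hw
    have hle : invm (Rel m) (Xs R₀ w) ≤ GS R₀ hw := by
      apply Submonoid.closure_le.mpr
      rintro s ⟨x, hx, rfl | rfl⟩
      · exact (mem_GS R₀ hw x).mpr (good_Xs R₀ hx)
      · exact (mem_GS R₀ hw (wi x)).mpr (good_Xs R₀ hx).inv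
    exact not_good_zero _ ((mem_GS R₀ hw [(Ge.z, true)]).mp (hle h))
  · intro hw
    exact zero_mem_of R₀ (fun x hx => ⟨Submonoid.subset_closure ⟨x, hx, Or.inl rfl⟩,
      Submonoid.subset_closure ⟨x, hx, Or.inr rfl⟩⟩) hw

theorem closed_iff (w : Wd (Fin m)) : ClosedMem (Rel m) (Xs R₀ w, [(Ge.r false, true)]) ↔
    FreeGroup.mk w ∈ Subgroup.normalClosure (R₀ : Set (FreeGroup (Fin m))) := by
  constructor
  · intro h
    by_contra hw
    have h1 := h (GS R₀ hw) ⟨?_, ?_⟩ (fun x hx => (mem_GS R₀ hw x).mpr (good_Xs R₀ hx))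
    · exact not_good_r _ ((mem_GS R₀ hw [(Ge.r false, true)]).mp h1)
    · intro u hu
      exact (mem_GS R₀ hw (wi u)).mpr ((mem_GS R₀ hw u).mp hu).inv
    · intro e s t he hs hsT
      obtain ⟨u, rfl⟩ := mk_surj s
      obtain ⟨v, rfl⟩ := mk_surj t
      exact (mem_GS R₀ hw v).mpr (((mem_GS R₀ hw u).mp hsT).up hw he hs)
  · intro hw T hT hX
    have hz : zz ∈ T := zero_mem_of R₀ (fun x hx => ⟨hX x hx, hT.1 x (hX x hx)⟩) hw
    exact hT.2 zz zz (mk (Rel m) [(Ge.r false, true)]) (zz_mul [(Ge.z, true)])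
      (zz_mul [(Ge.r false, true)]).symm hz

/-- The symmetric list of words. -/
noncomputable def Ys (w : Wd (Fin m)) : List (Wd (Ge m)) := Xs R₀ w ++ (Xs R₀ w).map wi

theorem submonoid_iff (w : Wd (Fin m)) : SubmonoidMem (Rel m) (Ys R₀ w, [(Ge.z, true)]) ↔
    InverseMem (Rel m) (Xs R₀ w, [(Ge.z, true)]) := by
  have h : subm (Rel m) (Ys R₀ w) = invm (Rel m) (Xs R₀ w) := by
    unfold subm invm
    congr 1
    ext s
    constructor
    · rintro ⟨x, hx, rfl⟩
      rcases List.mem_append.mp hx with hx | hx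
      · exact ⟨x, hx, Or.inl rfl⟩
      · obtain ⟨y, hy, rfl⟩ := List.mem_map.mp hx
        exact ⟨y, hy, Or.inr rfl⟩
    · rintro ⟨x, hx, rfl | rfl⟩
      · exact ⟨x, List.mem_append.mpr (Or.inl hx), rfl⟩
      · exact ⟨wi x, List.mem_append.mpr (Or.inr (List.mem_map.mpr ⟨x, hx, rfl⟩)), rfl⟩
  change mk _ _ ∈ subm _ _ ↔ mk _ _ ∈ invm _ _
  rw [h]

variable [Primcodable (Ge m)]

theorem wi_primrec {α : Type} [Finite α] [Primcodable α] : Primrec (wi : Wd α → Wd α) := by
  unfold wi
  exact Primrec.list_reverse.comp (Primrec.list_map Primrec.id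
    ((Primrec.dom_finite (fun a : α × Bool => ((a.1, !a.2) : α × Bool))).comp Primrec.snd).to₂)

theorem fw_primrec : Primrec (fw : Wd (Fin m) → Wd (Ge m)) := by
  have h : Primrec (rn (Ge.g false) : Wd (Fin m) → Wd (Ge m)) := by
    unfold rn
    exact Primrec.list_map Primrec.id ((Primrec.dom_finite (fun a : Fin m × Bool =>
      ((Ge.g false a.1, a.2) : Ge m × Bool))).comp Primrec.snd).to₂
  unfold fw
  exact Primrec.list_append.comp h (Primrec.list_append.comp (Primrec.const _)
    (wi_primrec.comp h))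

theorem Xs_primrec : Primrec (Xs R₀) :=
  Primrec.list_cons.comp fw_primrec (Primrec.const _)

theorem Ys_primrec : Primrec (Ys R₀) :=
  Primrec.list_append.comp (Xs_primrec R₀)
    (Primrec.list_map (Xs_primrec R₀) (wi_primrec.comp Primrec.snd).to₂)

end red

/-- There is a finitely presented inverse monoid with finite Schützenberger graphs, hence
tree-like, for which the membership problems in rational subsets, submonoids, inverse submonoids
and closed inverse submonoids are all undecidable. -/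
theorem result : ∃ (α : Type) (_ : Finite α) (_ : Primcodable α) (R : Wd α → Wd α → Prop),
    {p : Wd α × Wd α | R p.1 p.2}.Finite ∧ IsInverseMonoid (IM R) ∧
    (∀ s : IM R, {t : IM R | Strong R s t}.Finite) ∧ TreeLike R ∧
    ¬ ComputablePred (RationalMem R) ∧ ¬ ComputablePred (SubmonoidMem R) ∧
    ¬ ComputablePred (InverseMem R) ∧ ¬ ComputablePred (ClosedMem R) := by
  obtain ⟨m, R₀, W, hW, hu⟩ := Pool.Agent.Helper270.WP.word_problem
  obtain ⟨k, ⟨e⟩⟩ := Finite.exists_equiv_fin (Ge m)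
  let _ : Primcodable (Ge m) := Primcodable.ofEquiv (Fin k) e
  have hfin : ∀ s : TM m, {t : TM m | Strong (Rel m) s t}.Finite := rclass_finite
  refine ⟨Ge m, inferInstance, inferInstance, Rel m, rel_finite, isInverse, hfin,
    tree_of_finite hfin, ?_, ?_, ?_, ?_⟩
  · intro hc
    apply hu
    have hcomp : Computable (fun n => ((flower (Ys R₀ (W n)), [(Ge.z, true)]) :
        Auto (Ge m) × Wd (Ge m))) :=
      Computable.pair ((flower_primrec.to_comp.comp (Ys_primrec R₀).to_comp).comp hW)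
        (Computable.const _)
    have h2 : ComputablePred (fun n => RationalMem (Rel m)
        (flower (Ys R₀ (W n)), [(Ge.z, true)])) :=
      ComputablePred.computable_of_manyOneReducible ⟨_, hcomp, fun _ => Iff.rfl⟩ hc
    exact h2.of_eq (fun n => (rational_flower _ _ _).trans
      ((submonoid_iff R₀ (W n)).trans (inverse_iff R₀ (W n))))
  · intro hc
    apply hu
    have hcomp : Computable (fun n => ((Ys R₀ (W n), [(Ge.z, true)]) :
        List (Wd (Ge m)) × Wd (Ge m))) :=
      Computable.pair ((Ys_primrec R₀).to_comp.comp hW) (Computable.const _)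
    have h2 : ComputablePred (fun n => SubmonoidMem (Rel m) (Ys R₀ (W n), [(Ge.z, true)])) :=
      ComputablePred.computable_of_manyOneReducible ⟨_, hcomp, fun _ => Iff.rfl⟩ hc
    exact h2.of_eq (fun n => (submonoid_iff R₀ (W n)).trans (inverse_iff R₀ (W n)))
  · intro hc
    apply hu
    have hcomp : Computable (fun n => ((Xs R₀ (W n), [(Ge.z, true)]) :
        List (Wd (Ge m)) × Wd (Ge m))) :=
      Computable.pair ((Xs_primrec R₀).to_comp.comp hW) (Computable.const _)
    have h2 : ComputablePred (fun n => InverseMem (Rel m) (Xs R₀ (W n), [(Ge.z, true)])) :=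
      ComputablePred.computable_of_manyOneReducible ⟨_, hcomp, fun _ => Iff.rfl⟩ hc
    exact h2.of_eq (fun n => inverse_iff R₀ (W n))
  · intro hc
    apply hu
    have hcomp : Computable (fun n => ((Xs R₀ (W n), [(Ge.r false, true)]) :
        List (Wd (Ge m)) × Wd (Ge m))) :=
      Computable.pair ((Xs_primrec R₀).to_comp.comp hW) (Computable.const _)
    have h2 : ComputablePred (fun n => ClosedMem (Rel m) (Xs R₀ (W n), [(Ge.r false, true)])) :=
      ComputablePred.computable_of_manyOneReducible ⟨_, hcomp, fun _ => Iff.rfl⟩ hc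
    exact h2.of_eq (fun n => closed_iff R₀ (W n))

end Pool.Agent.Results.MP_56939f_al.AllFourUndecidable
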